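import Mathlib
import Pool.Agent.PDM.Stmts

set_option autoImplicit false

namespace Pool.Agent.PDM.H18

open Pool.Agent.PDN Pool.Agent.PDM

/-- pairs counted by the first component -/
theorem card_pairs {V : Type} [Fintype V] (r : V → V → Prop) :
    Nat.card {p : V × V // r p.1 p.2} = ∑ v, Nat.card {a // r v a} := by
  classical
  rw [← Nat.card_sigma]
  exact Nat.card_congr
    { toFun := fun p => ⟨p.1.1, p.1.2, p.2⟩
      invFun := fun s => ⟨(s.1, s.2.1), s.2.2⟩
      left_inv := fun _ => rfl
      right_inv := fun _ => rfl }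

open Classical in
/-- the faces around a vertex are the ones of the family and the others -/
theorem card_split {V : Type} [Fintype V] (T : Tri V) (U : V → V → V → Prop) (h : Free T U)
    (v : V) :
    Nat.card {a // ∃ b, T.f v a b ∧ ¬ U v a b} + (if Mk U v then 1 else 0) = T.deg v := by
  have h1 : Nat.card {a // ∃ b, U v a b} = (if Mk U v then 1 else 0) := by
    split_ifs with hm
    · obtain ⟨a, b, hab⟩ := hm
      rw [Nat.card_eq_one_iff_unique]
      refine ⟨⟨?_⟩, ⟨⟨a, b, hab⟩⟩⟩
      rintro ⟨a₁, b₁, h₁⟩ ⟨a₂, b₂, h₂⟩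
      exact Subtype.ext (h.disj h₁ h₂)
    · rw [Nat.card_eq_zero]
      left
      refine ⟨?_⟩
      rintro ⟨a, b, hab⟩
      exact hm ⟨a, b, hab⟩
  rw [← h1, ← Nat.card_sum]
  unfold Tri.deg
  have e : Function.Bijective (fun x : {a // ∃ b, T.f v a b ∧ ¬ U v a b} ⊕ {a // ∃ b, U v a b} =>
      (Sum.elim (fun y => ⟨y.1, by
          obtain ⟨b, hb⟩ := y.2
          exact ⟨b, hb.1⟩⟩)
        (fun y => ⟨y.1, by
          obtain ⟨b, hb⟩ := y.2
          exact ⟨b, h.sub hb⟩⟩) x : {a // T.Adj v a})) := by
    constructor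
    · rintro (⟨a, b, hab, hn⟩ | ⟨a, b, hab⟩) (⟨a', b', hab', hn'⟩ | ⟨a', b', hab'⟩) hh
      · have := congrArg Subtype.val hh
        simp only [Sum.elim_inl] at this
        subst this
        rfl
      · have := congrArg Subtype.val hh
        simp only [Sum.elim_inl, Sum.elim_inr] at this
        subst this
        have hb := T.uniq (h.sub hab') hab
        subst hb
        exact absurd hab' hn
      · have := congrArg Subtype.val hh
        simp only [Sum.elim_inl, Sum.elim_inr] at this
        subst this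
        have hb := T.uniq (h.sub hab) hab'
        subst hb
        exact absurd hab hn'
      · have := congrArg Subtype.val hh
        simp only [Sum.elim_inr] at this
        subst this
        rfl
    · rintro ⟨a, b, hab⟩
      by_cases hU : U v a b
      · exact ⟨Sum.inr ⟨a, b, hU⟩, rfl⟩
      · exact ⟨Sum.inl ⟨a, b, hab, hU⟩, rfl⟩
  exact Nat.card_congr (Equiv.ofBijective _ e)

theorem fin (tpl : TplStmt) (fil : FilStmt) : FinStmt := by
  classical
  intro dg M n q hRl hs hq hn
  obtain ⟨V, iV, T, nm, U, hc, hfr, -, -, -, -, hM⟩ := hRl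
  -- the multiset
  have hM' : M = (Finset.univ : Finset V).val.map (fun v => (T.deg v, decide (Mk U v))) := by
    rw [← hM]
    rw [Finset.filter_true_of_mem (by
      intro v _ i hi
      exact absurd hi (Nat.not_lt_zero i))]
  have hcard : M.card = Fintype.card V := by
    rw [hM', Multiset.card_map]
    rfl
  have hsum : (M.map Prod.fst).sum = ∑ v, T.deg v := by
    rw [hM', Multiset.map_map]
    rfl
  have hcount : M.countP (fun p => p.2 = true) = ∑ v, (if Mk U v then 1 else 0) := by
    rw [hM', Multiset.countP_map]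
    rw [Finset.sum_ite, Finset.sum_const_zero, add_zero, Finset.sum_const, smul_eq_mul, mul_one]
    simp only [decide_eq_true_eq]
    rfl
  -- the family of the other faces
  obtain ⟨W, iW, T', ι, hc', hd1, hd2, hW⟩ := fil V T (fun u v w => T.f u v w ∧ ¬ U u v w) hc
    (fun u v w h => h.1)
    (fun u v w h => ⟨T.cyc h.1, fun h' => h.2 (hfr.rot (hfr.rot h'))⟩)
  have hsp := fun v => card_split T U hfr v
  have hdeg : ∀ v, T'.deg (ι v) + (if Mk U v then 1 else 0) = 2 * T.deg v := by
    intro v
    have h1 := hd1 v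
    have h2 := hsp v
    omega
  have hR : Nat.card {p : V × V // ∃ w, T.f p.1 p.2 w ∧ ¬ U p.1 p.2 w} + 3 * q = ∑ v, T.deg v := by
    rw [card_pairs (fun u v => ∃ w, T.f u v w ∧ ¬ U u v w), ← hq, hcount, ← Finset.sum_add_distrib]
    exact Finset.sum_congr rfl (fun v _ => hsp v)
  have hcardW : Fintype.card W = Fintype.card V + n := by
    rw [Nat.card_eq_fintype_card, Nat.card_eq_fintype_card] at hW
    rw [hsum, hcard] at hs
    rw [hcard] at hn
    have hW' : 3 * Fintype.card W = 3 * Fintype.card V +
      Nat.card {p : V × V // ∃ w, T.f p.1 p.2 w ∧ ¬ U p.1 p.2 w} := hW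
    omega
  -- degrees of the new triangulation
  set S : Finset W := Finset.univ.map ι with hS
  have hSc : ∀ w ∈ Sᶜ, T'.deg w = 3 := by
    intro w hw
    apply hd2
    rintro ⟨v, rfl⟩
    rw [Finset.mem_compl] at hw
    exact hw (Finset.mem_map_of_mem ι (Finset.mem_univ v))
  have hScard : (Sᶜ).card = n := by
    rw [Finset.card_compl, hS, Finset.card_map, Finset.card_univ, hcardW]
    omega
  have hsumW : ∑ w, T'.deg w = ∑ v, T'.deg (ι v) + 3 * n := by
    rw [← Finset.sum_add_sum_compl S, hS, Finset.sum_map, ← hS, Finset.sum_congr rfl hSc,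
      Finset.sum_const, hScard, smul_eq_mul, mul_comm n 3]
  have hsum2 : ∑ v, T'.deg (ι v) + 3 * q = 2 * ∑ v, T.deg v := by
    rw [← hq, hcount, ← Finset.sum_add_distrib, Finset.mul_sum]
    exact Finset.sum_congr rfl (fun v _ => hdeg v)
  have htight : T'.Tight := by
    unfold Tri.Tight
    have e : Nat.card {p : W × W // T'.Adj p.1 p.2} = ∑ w, T'.deg w := card_pairs _
    rw [e, hsumW, Nat.card_eq_fintype_card, hcardW]
    rw [hsum, hcard] at hs
    rw [hcard] at hn
    omega
  refine ⟨W, iW, T'.graph, tpl W T' hc' htight, ?_⟩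
  have hg : (fun w => Nat.card (T'.graph.neighborSet w)) = fun w => T'.deg w := by
    funext w
    rfl
  rw [hg]
  have huniv : (Finset.univ : Finset W).val = S.val + (Sᶜ).val := by
    rw [← Finset.disjUnion_val S Sᶜ disjoint_compl_right, Finset.disjUnion_eq_union,
      Finset.union_compl]
  rw [huniv, Multiset.map_add]
  refine congrArg₂ (· + ·) ?_ ?_
  · rw [hS, Finset.map_val, Multiset.map_map, hM', Multiset.map_map]
    refine Multiset.map_congr rfl ?_
    intro v _
    simp only [Function.comp_apply, decide_eq_true_eq]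
    have h1 := hdeg v
    split_ifs at h1 ⊢ <;> omega
  · rw [Multiset.map_congr rfl hSc, Multiset.map_const', Finset.card_val, hScard]

end Pool.Agent.PDM.H18
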