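import Mathlib
import Pool.Agent.PDM.Stmts

set_option autoImplicit false

namespace Pool.Agent.PDM.H18

open Pool.Agent.PDN Pool.Agent.PDM

/-- the reversed triangulation -/
def rev {V : Type} (T : Tri V) : Tri V where
  f u v w := T.f v u w
  cyc := fun h => T.cyc (T.cyc h)
  uniq := fun h h' => T.uniq h h'
  opp := fun h => T.opp h
  ne := fun h => (T.ne h).symm
  link := by
    intro u v w hv hw
    have key : ∀ x y, T.f u x y ↔ T.f y u x := fun x y =>
      ⟨fun h => T.cyc (T.cyc h), fun h => T.cyc h⟩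
    have hv' : ∃ z, T.f u v z := by
      obtain ⟨z, hz⟩ := hv
      exact T.opp hz
    have hw' : ∃ z, T.f u w z := by
      obtain ⟨z, hz⟩ := hw
      exact T.opp hz
    have h1 := T.link hw' hv'
    have h2 : Relation.ReflTransGen (Function.swap (T.f u)) v w :=
      Relation.reflTransGen_swap.mpr h1
    refine Relation.ReflTransGen.mono ?_ v w h2
    intro a b hab
    exact (key b a).mp hab

theorem rev_adj {V : Type} (T : Tri V) (u v : V) : (rev T).Adj u v ↔ T.Adj u v := by
  constructor
  · rintro ⟨w, hw⟩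
    exact T.opp hw
  · rintro ⟨w, hw⟩
    exact T.opp hw

theorem rev_graph {V : Type} (T : Tri V) : (rev T).graph = T.graph := by
  ext u v
  exact rev_adj T u v

theorem rev_deg {V : Type} (T : Tri V) (u : V) : (rev T).deg u = T.deg u := by
  unfold Tri.deg
  exact Nat.card_congr (Equiv.subtypeEquivRight (fun v => rev_adj T u v))

/-- the reversed family -/
def revU {V : Type} (U : V → V → V → Prop) : V → V → V → Prop := fun u v w => U v u w

theorem revU_mk {V : Type} {T : Tri V} {U : V → V → V → Prop} (h : Free T U) (u : V) :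
    Mk (revU U) u ↔ Mk U u := by
  constructor
  · rintro ⟨v, w, hvw⟩
    exact ⟨w, v, h.rot hvw⟩
  · rintro ⟨v, w, hvw⟩
    exact ⟨w, v, h.rot (h.rot hvw)⟩

theorem revU_free {V : Type} {T : Tri V} {U : V → V → V → Prop} (h : Free T U) :
    Free (rev T) (revU U) where
  sub := fun hu => h.sub hu
  rot := fun hu => h.rot (h.rot hu)
  disj := by
    intro u v w v' w' h1 h2
    have h1' : U u w v := h.rot h1
    have h2' : U u w' v' := h.rot h2
    have e := h.disj h1' h2'
    subst e
    exact T.uniq (h.sub h1') (h.sub h2')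

theorem mir : MirStmt := by
  intro k F mk dg M h
  obtain ⟨V, iV, T, nm, U, hc, hfr, hinj, hF, hdeg, hmk, hM⟩ := h
  refine ⟨V, iV, rev T, nm, revU U, ?_, revU_free hfr, hinj, ?_, ?_, ?_, ?_⟩
  · rw [rev_graph]
    exact hc
  · intro p hp
    rw [List.mem_map] at hp
    obtain ⟨s, hs, rfl⟩ := hp
    obtain ⟨h1, h2, h3, h4, h5⟩ := hF s hs
    exact ⟨h2, h1, h3, h4, h5⟩
  · intro i hi
    rw [rev_deg]
    exact hdeg i hi
  · intro i hi
    rw [revU_mk hfr]
    exact hmk i hi
  · rw [← hM]
    refine Multiset.map_congr rfl ?_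
    intro v _
    rw [rev_deg]
    congr 1
    exact decide_eq_decide.mpr (revU_mk hfr v)

end Pool.Agent.PDM.H18
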