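import Mathlib
import Pool.Agent.PDM.Stmts

set_option autoImplicit false

namespace Pool.Agent.PDM.H18

open Pool.Agent.PDN Pool.Agent.PDM

/-- filtered families under an embedding -/
theorem filt {V W X : Type} [Fintype V] [Fintype W] (e : V ↪ W) (P : W → Prop) (Q : V → Prop)
    {_ : DecidablePred P} {_ : DecidablePred Q} (g : W → X) (h : V → X)
    (h1 : ∀ w, P w → ∃ v, e v = w) (h2 : ∀ v, P (e v) ↔ Q v)
    (h3 : ∀ v, Q v → g (e v) = h v) :
    (Finset.univ.filter P).val.map g = (Finset.univ.filter Q).val.map h := by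
  have he : Finset.univ.filter P = (Finset.univ.filter Q).map e := by
    ext w
    simp only [Finset.mem_filter, Finset.mem_univ, true_and, Finset.mem_map]
    constructor
    · intro hw
      obtain ⟨v, rfl⟩ := h1 w hw
      exact ⟨v, (h2 v).mp hw, rfl⟩
    · rintro ⟨v, hv, rfl⟩
      exact (h2 v).mpr hv
  rw [he, Finset.map_val, Multiset.map_map]
  refine Multiset.map_congr rfl ?_
  intro v hv
  have hv' : Q v := (Finset.mem_filter.mp (Finset.mem_def.mpr hv)).2
  exact h3 v hv'

/-- a rotation invariant property of the members of the list holds up to rotation -/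
theorem rt_all {F : List (ℕ × ℕ × ℕ)} {P : ℕ → ℕ → ℕ → Prop}
    (hrot : ∀ a b c, P a b c → P b c a) (hF : ∀ p ∈ F, P p.1 p.2.1 p.2.2)
    (p : ℕ × ℕ × ℕ) (hp : Rt F p) : P p.1 p.2.1 p.2.2 := by
  obtain ⟨s, hs, h | h | h⟩ := hp
  · subst h
    exact hF _ hs
  · subst h
    exact hrot _ _ _ (hF _ hs)
  · subst h
    exact hrot _ _ _ (hrot _ _ _ (hF _ hs))

/-- the image of a family of faces in `Option V` -/
def optU {V : Type} (U : V → V → V → Prop) : Option V → Option V → Option V → Prop :=
  fun x y z => ∃ u v w, x = some u ∧ y = some v ∧ z = some w ∧ U u v w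

theorem optU_some {V : Type} (U : V → V → V → Prop) (u v w : V) :
    optU U (some u) (some v) (some w) ↔ U u v w := by
  constructor
  · rintro ⟨u', v', w', h1, h2, h3, h4⟩
    rw [Option.some_inj] at h1 h2 h3
    subst h1
    subst h2
    subst h3
    exact h4
  · intro h
    exact ⟨u, v, w, rfl, rfl, rfl, h⟩

theorem optU_mk_some {V : Type} (U : V → V → V → Prop) (u : V) :
    Mk (optU U) (some u) ↔ Mk U u := by
  constructor
  · rintro ⟨y, z, u', v', w', h1, h2, h3, h4⟩
    rw [Option.some_inj] at h1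
    subst h1
    exact ⟨v', w', h4⟩
  · rintro ⟨v, w, h⟩
    exact ⟨some v, some w, (optU_some U u v w).mpr h⟩

theorem optU_mk_none {V : Type} (U : V → V → V → Prop) : ¬ Mk (optU U) (none : Option V) := by
  rintro ⟨y, z, u', v', w', h1, h2, h3, h4⟩
  cases h1

theorem opa (ins : InsStmt) : OpaStmt := by
  intro k F mk dg M h i j l hijl hk F' dg' hF' hdg' hdgk
  obtain ⟨V, iV, T, nm, U, hc, hfr, hinj, hF, hdeg, hmk, hM⟩ := h
  obtain ⟨hi, hj, hl, hf, hnU⟩ := hF _ hijl
  simp only at hi hj hl hf hnU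
  obtain ⟨T', hT, hT1, hT2, hT3, hd, hdu, hdv, hdw, hdn, hcon⟩ := ins V T _ _ _ hf
  have hf2 : T.f (nm j) (nm l) (nm i) := T.cyc hf
  have hf3 : T.f (nm l) (nm i) (nm j) := T.cyc hf2
  have nij : i ≠ j := by
    rintro rfl
    exact T.ne hf rfl
  have njl : j ≠ l := by
    rintro rfl
    exact T.ne hf2 rfl
  have nli : l ≠ i := by
    rintro rfl
    exact T.ne hf3 rfl
  -- the old faces other than the face `i j l`
  have hkeep : ∀ u v w, T.f u v w →
      ¬ (u = nm i ∧ v = nm j ∧ w = nm l) → ¬ (u = nm j ∧ v = nm l ∧ w = nm i) →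
      ¬ (u = nm l ∧ v = nm i ∧ w = nm j) → T'.f (some u) (some v) (some w) := by
    intro u v w huvw h1 h2 h3
    apply hT u v w huvw
    rintro (⟨rfl, rfl⟩ | ⟨rfl, rfl⟩ | ⟨rfl, rfl⟩)
    · exact h1 ⟨rfl, rfl, T.uniq huvw hf⟩
    · exact h2 ⟨rfl, rfl, T.uniq huvw hf2⟩
    · exact h3 ⟨rfl, rfl, T.uniq huvw hf3⟩
  -- the new names
  set nm' : ℕ → Option V := fun n => if n = k then none else some (nm n) with hnm'
  have nmk : nm' k = none := by simp [hnm']
  have nms : ∀ n, n < k → nm' n = some (nm n) := by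
    intro n hn
    simp only [hnm']
    rw [if_neg (Nat.ne_of_lt hn)]
  refine ⟨Option V, inferInstance, T', nm', optU U, hcon hc, ?_, ?_, ?_, ?_, ?_, ?_⟩
  · -- Free
    refine ⟨?_, ?_, ?_⟩
    · rintro x y z ⟨u, v, w, rfl, rfl, rfl, huvw⟩
      apply hkeep u v w (hfr.sub huvw)
      · rintro ⟨rfl, rfl, rfl⟩
        exact hnU huvw
      · rintro ⟨rfl, rfl, rfl⟩
        exact hnU (hfr.rot (hfr.rot huvw))
      · rintro ⟨rfl, rfl, rfl⟩
        exact hnU (hfr.rot huvw)
    · rintro x y z ⟨u, v, w, rfl, rfl, rfl, huvw⟩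
      exact ⟨v, w, u, rfl, rfl, rfl, hfr.rot huvw⟩
    · rintro x y z y' z' ⟨u, v, w, rfl, rfl, rfl, huvw⟩ ⟨u', v', w', h1, rfl, rfl, huvw'⟩
      rw [Option.some_inj] at h1
      subst h1
      rw [hfr.disj huvw huvw']
  · -- injectivity
    intro a b ha hb hab
    rcases Nat.lt_succ_iff_lt_or_eq.mp ha with ha' | rfl
    · rcases Nat.lt_succ_iff_lt_or_eq.mp hb with hb' | rfl
      · rw [nms a ha', nms b hb', Option.some_inj] at hab
        exact hinj a b ha' hb' hab
      · rw [nms a ha', nmk] at hab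
        cases hab
    · rcases Nat.lt_succ_iff_lt_or_eq.mp hb with hb' | rfl
      · rw [nms b hb', nmk] at hab
        cases hab
      · rfl
  · -- faces
    intro p hp
    rcases hF' p hp with ⟨h1, h2⟩ | h1
    · have hp' := rt_all (P := fun a b c => a < k ∧ b < k ∧ c < k ∧ T.f (nm a) (nm b) (nm c) ∧
        ¬ U (nm a) (nm b) (nm c)) (by
          rintro a b c ⟨ha, hb, hc, hd, he⟩
          exact ⟨hb, hc, ha, T.cyc hd, fun h => he (hfr.rot (hfr.rot h))⟩) hF p h1
      obtain ⟨a, b, c⟩ := p
      obtain ⟨ha, hb, hc', hf', hnU'⟩ := hp'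
      simp only at ha hb hc' hf' hnU'
      refine ⟨Nat.lt_succ_of_lt ha, Nat.lt_succ_of_lt hb, Nat.lt_succ_of_lt hc', ?_, ?_⟩
      · simp only
        rw [nms a ha, nms b hb, nms c hc']
        apply hkeep _ _ _ hf'
        · rintro ⟨e1, e2, e3⟩
          apply h2
          left
          rw [hinj _ _ ha hi e1, hinj _ _ hb hj e2, hinj _ _ hc' hl e3]
        · rintro ⟨e1, e2, e3⟩
          apply h2
          right
          left
          rw [hinj _ _ ha hj e1, hinj _ _ hb hl e2, hinj _ _ hc' hi e3]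
        · rintro ⟨e1, e2, e3⟩
          apply h2
          right
          right
          rw [hinj _ _ ha hl e1, hinj _ _ hb hi e2, hinj _ _ hc' hj e3]
      · simp only
        rw [nms a ha, nms b hb, nms c hc', optU_some]
        exact hnU'
    · have hP : ∀ s ∈ [(i, j, k), (j, l, k), (l, i, k)],
          (s : ℕ × ℕ × ℕ).1 < k + 1 ∧ s.2.1 < k + 1 ∧ s.2.2 < k + 1 ∧
            T'.f (nm' s.1) (nm' s.2.1) (nm' s.2.2) ∧
            ¬ optU U (nm' s.1) (nm' s.2.1) (nm' s.2.2) := by
        have hno : ∀ x y, ¬ optU U x y (none : Option V) := by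
          rintro x y ⟨u, v, w, -, -, h3, -⟩
          cases h3
        intro s hs
        simp only [List.mem_cons, List.not_mem_nil, or_false] at hs
        rcases hs with rfl | rfl | rfl
        · simp only
          rw [nms i hi, nms j hj, nmk]
          exact ⟨by omega, by omega, by omega, hT1, hno _ _⟩
        · simp only
          rw [nms l hl, nms j hj, nmk]
          exact ⟨by omega, by omega, by omega, hT2, hno _ _⟩
        · simp only
          rw [nms l hl, nms i hi, nmk]
          exact ⟨by omega, by omega, by omega, hT3, hno _ _⟩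
      exact rt_all (P := fun a b c => a < k + 1 ∧ b < k + 1 ∧ c < k + 1 ∧
        T'.f (nm' a) (nm' b) (nm' c) ∧ ¬ optU U (nm' a) (nm' b) (nm' c)) (by
          rintro a b c ⟨ha, hb, hc, hd, he⟩
          refine ⟨hb, hc, ha, T'.cyc hd, ?_⟩
          rintro ⟨u, v, w, e1, e2, e3, e4⟩
          exact he ⟨w, u, v, e3, e1, e2, hfr.rot (hfr.rot e4)⟩) hP p h1
  · -- degrees
    intro n hn
    rcases Nat.lt_succ_iff_lt_or_eq.mp hn with hn' | rfl
    · rw [nms n hn', hdg' n hn', ← hdeg n hn']
      by_cases e1 : n = i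
      · subst e1
        rw [if_pos (Or.inl rfl), hdu]
      · by_cases e2 : n = j
        · subst e2
          rw [if_pos (Or.inr (Or.inl rfl)), hdv]
        · by_cases e3 : n = l
          · subst e3
            rw [if_pos (Or.inr (Or.inr rfl)), hdw]
          · rw [if_neg (by tauto), hd _ (fun h => e1 (hinj _ _ hn' hi h))
              (fun h => e2 (hinj _ _ hn' hj h)) (fun h => e3 (hinj _ _ hn' hl h))]
            rfl
    · rw [nmk, hdgk, hdn]
  · -- marks
    intro n hn
    rcases Nat.lt_succ_iff_lt_or_eq.mp hn with hn' | rfl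
    · rw [nms n hn', optU_mk_some]
      exact hmk n hn'
    · rw [nmk]
      exact ⟨fun h => absurd h (optU_mk_none U), fun h => absurd h hk⟩
  · -- the multiset
    rw [← hM]
    refine filt Function.Embedding.some _ _ _ _ ?_ ?_ ?_
    · intro w hw
      cases w with
      | none => exact absurd nmk.symm (hw k (Nat.lt_succ_self k))
      | some v => exact ⟨v, rfl⟩
    · intro v
      constructor
      · intro h n hn e
        apply h n (Nat.lt_succ_of_lt hn)
        rw [nms n hn, e]
        rfl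
      · intro h n hn e
        rcases Nat.lt_succ_iff_lt_or_eq.mp hn with hn' | rfl
        · rw [nms n hn'] at e
          exact h n hn' (Option.some_inj.mp e)
        · rw [nmk] at e
          cases e
    · intro v hv
      have e1 : T'.deg (some v) = T.deg v := hd v (hv i hi) (hv j hj) (hv l hl)
      exact Prod.ext e1 (decide_eq_decide.mpr (optU_mk_some U v))

end Pool.Agent.PDM.H18
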