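import Mathlib
import Pool.Agent.PDM.Stmts

set_option autoImplicit false

namespace Pool.Agent.PDM.H18

open Pool.Agent.PDN Pool.Agent.PDM

/-- a rotation invariant property of the members of the list holds up to rotation -/
theorem rt_all' {F : List (ℕ × ℕ × ℕ)} {P : ℕ → ℕ → ℕ → Prop}
    (hrot : ∀ a b c, P a b c → P b c a) (hF : ∀ p ∈ F, P p.1 p.2.1 p.2.2)
    (p : ℕ × ℕ × ℕ) (hp : Rt F p) : P p.1 p.2.1 p.2.2 := by
  obtain ⟨s, hs, h | h | h⟩ := hp
  · subst h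
    exact hF _ hs
  · subst h
    exact hrot _ _ _ (hF _ hs)
  · subst h
    exact hrot _ _ _ (hrot _ _ _ (hF _ hs))

/-- the family with the rotations of the face `(a, b, c)` added -/
def addU {V : Type} (U : V → V → V → Prop) (a b c : V) : V → V → V → Prop :=
  fun x y z => U x y z ∨ (x = a ∧ y = b ∧ z = c) ∨ (x = b ∧ y = c ∧ z = a) ∨
    (x = c ∧ y = a ∧ z = b)

theorem addU_mk {V : Type} (U : V → V → V → Prop) (a b c x : V) :
    Mk (addU U a b c) x ↔ x = a ∨ x = b ∨ x = c ∨ Mk U x := by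
  constructor
  · rintro ⟨y, z, h | ⟨h, -, -⟩ | ⟨h, -, -⟩ | ⟨h, -, -⟩⟩
    · exact Or.inr (Or.inr (Or.inr ⟨y, z, h⟩))
    · exact Or.inl h
    · exact Or.inr (Or.inl h)
    · exact Or.inr (Or.inr (Or.inl h))
  · rintro (rfl | rfl | rfl | ⟨y, z, h⟩)
    · exact ⟨b, c, Or.inr (Or.inl ⟨rfl, rfl, rfl⟩)⟩
    · exact ⟨c, a, Or.inr (Or.inr (Or.inl ⟨rfl, rfl, rfl⟩))⟩
    · exact ⟨a, b, Or.inr (Or.inr (Or.inr ⟨rfl, rfl, rfl⟩))⟩
    · exact ⟨y, z, Or.inl h⟩

theorem opd : OpdStmt := by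
  intro k F mk dg M h i j l hijl him hjm hlm F' hF'
  obtain ⟨V, iV, T, nm, U, hc, hfr, hinj, hF, hdeg, hmk, hM⟩ := h
  obtain ⟨hi, hj, hl, hf, hnU⟩ := hF _ hijl
  simp only at hi hj hl hf hnU
  have hf2 : T.f (nm j) (nm l) (nm i) := T.cyc hf
  have hf3 : T.f (nm l) (nm i) (nm j) := T.cyc hf2
  have hni : ¬ Mk U (nm i) := fun h => him ((hmk i hi).mp h)
  have hnj : ¬ Mk U (nm j) := fun h => hjm ((hmk j hj).mp h)
  have hnl : ¬ Mk U (nm l) := fun h => hlm ((hmk l hl).mp h)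
  have nij : nm i ≠ nm j := T.ne hf
  have njl : nm j ≠ nm l := T.ne hf2
  have nli : nm l ≠ nm i := T.ne hf3
  refine ⟨V, iV, T, nm, addU U (nm i) (nm j) (nm l), hc, ?_, hinj, ?_, hdeg, ?_, ?_⟩
  · refine ⟨?_, ?_, ?_⟩
    · rintro x y z (h | ⟨rfl, rfl, rfl⟩ | ⟨rfl, rfl, rfl⟩ | ⟨rfl, rfl, rfl⟩)
      · exact hfr.sub h
      · exact hf
      · exact hf2
      · exact hf3
    · rintro x y z (h | ⟨h1, h2, h3⟩ | ⟨h1, h2, h3⟩ | ⟨h1, h2, h3⟩)
      · exact Or.inl (hfr.rot h)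
      · exact Or.inr (Or.inr (Or.inl ⟨h2, h3, h1⟩))
      · exact Or.inr (Or.inr (Or.inr ⟨h2, h3, h1⟩))
      · exact Or.inr (Or.inl ⟨h2, h3, h1⟩)
    · rintro x y z y' z' (h | ⟨h1, h2, -⟩ | ⟨h1, h2, -⟩ | ⟨h1, h2, -⟩)
        (h' | ⟨h1', h2', -⟩ | ⟨h1', h2', -⟩ | ⟨h1', h2', -⟩)
      · exact hfr.disj h h'
      · exact absurd ⟨y, z, h1' ▸ h⟩ hni
      · exact absurd ⟨y, z, h1' ▸ h⟩ hnj
      · exact absurd ⟨y, z, h1' ▸ h⟩ hnl
      · exact absurd ⟨y', z', h1 ▸ h'⟩ hni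
      · rw [h2, h2']
      · exact absurd (h1.symm.trans h1') nij
      · exact absurd (h1.symm.trans h1') nli.symm
      · exact absurd ⟨y', z', h1 ▸ h'⟩ hnj
      · exact absurd (h1.symm.trans h1') nij.symm
      · rw [h2, h2']
      · exact absurd (h1.symm.trans h1') njl
      · exact absurd ⟨y', z', h1 ▸ h'⟩ hnl
      · exact absurd (h1.symm.trans h1') nli
      · exact absurd (h1.symm.trans h1') njl.symm
      · rw [h2, h2']
  · intro p hp
    obtain ⟨h1, h2⟩ := hF' p hp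
    have hp' := rt_all' (P := fun a b c => a < k ∧ b < k ∧ c < k ∧ T.f (nm a) (nm b) (nm c) ∧
      ¬ U (nm a) (nm b) (nm c)) (by
        rintro a b c ⟨ha, hb, hc, hd, he⟩
        exact ⟨hb, hc, ha, T.cyc hd, fun h => he (hfr.rot (hfr.rot h))⟩) hF p h1
    obtain ⟨a, b, c⟩ := p
    obtain ⟨ha, hb, hc', hf', hnU'⟩ := hp'
    simp only at ha hb hc' hf' hnU'
    refine ⟨ha, hb, hc', hf', ?_⟩
    rintro (h | ⟨e1, e2, e3⟩ | ⟨e1, e2, e3⟩ | ⟨e1, e2, e3⟩)
    · exact hnU' h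
    · apply h2
      left
      rw [hinj _ _ ha hi e1, hinj _ _ hb hj e2, hinj _ _ hc' hl e3]
    · apply h2
      right
      left
      rw [hinj _ _ ha hj e1, hinj _ _ hb hl e2, hinj _ _ hc' hi e3]
    · apply h2
      right
      right
      rw [hinj _ _ ha hl e1, hinj _ _ hb hi e2, hinj _ _ hc' hj e3]
  · intro n hn
    rw [addU_mk, hmk n hn]
    simp only [List.mem_cons]
    constructor
    · rintro (h | h | h | h)
      · exact Or.inl (hinj _ _ hn hi h)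
      · exact Or.inr (Or.inl (hinj _ _ hn hj h))
      · exact Or.inr (Or.inr (Or.inl (hinj _ _ hn hl h)))
      · exact Or.inr (Or.inr (Or.inr h))
    · rintro (rfl | rfl | rfl | h)
      · exact Or.inl rfl
      · exact Or.inr (Or.inl rfl)
      · exact Or.inr (Or.inr (Or.inl rfl))
      · exact Or.inr (Or.inr (Or.inr h))
  · classical
    rw [← hM]
    refine Multiset.map_congr rfl ?_
    intro v hv
    have hv' := (Finset.mem_filter.mp (Finset.mem_def.mpr hv)).2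
    refine Prod.ext rfl (decide_eq_decide.mpr ?_)
    rw [addU_mk]
    constructor
    · rintro (h | h | h | h)
      · exact absurd h (hv' i hi)
      · exact absurd h (hv' j hj)
      · exact absurd h (hv' l hl)
      · exact h
    · intro h
      exact Or.inr (Or.inr (Or.inr h))

end Pool.Agent.PDM.H18
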